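import Pool.Agent.Helper35.SHR.Sheet2

set_option autoImplicit false

namespace SHR
open SHQ
open scoped ENNReal

theorem V5N_LN (h3 : ST_WTN) (n : ℕ) (o : NOm) (p g : Fin 3) (hg : g ≠ p) (a : Fin 3)
    (X : St n → ℕ) (x : St n → ℝ≥0∞) (hX : ∀ s, toE (X (rs p g s)) ≤ x s) (s : St n) :
    toE (LN o (rl p g a) X (rs p g s)) ≤ wt o.om s a * x (nx s a) := by
  obtain ⟨w1, _, w3⟩ := h3
  obtain ⟨_, _, _, _, w4⟩ := w3 n p g hg
  obtain ⟨u1, u2, _⟩ := w4 o s a
  rw [LN, u2]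
  refine ((w1 _ _).1).trans ?_
  rw [u1]
  exact mul_le_mul' le_rfl (hX _)

theorem st_V5N (h1 : ST_V5E) (h2 : ST_STAR) (h3 : ST_WTN) : ST_V5N := by
  intro n z o p g F f hg hF Y
  have h3' := h3
  obtain ⟨w1, w2, w3⟩ := h3'
  obtain ⟨r0, r1, r2, _, w4⟩ := w3 n p g hg
  have hadd : ∀ a b : ℕ, toE (a + b) = toE a + toE b := fun a b => (w1 a b).2.2.1
  have hmul : ∀ (a : ℕ) (x : ℝ≥0∞), toE a ≤ x → toE (mulN z a) ≤ toE z * x := fun a x h =>
    ((w1 z a).1).trans (mul_le_mul' le_rfl h)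
  have hz : toE 0 = 0 := by simp [toE]
  have hth : ∀ (X : St n → ℕ) (x : St n → ℝ≥0∞), (∀ s, toE (X (rs p g s)) ≤ x s) → ∀ s,
      toE (LN o 1 X (rs p g s)) ≤ wt o.om s (th p g) * x (nx s (th p g)) := by
    intro X x hX s
    have := V5N_LN h3 n o p g hg (th p g) X x hX s
    rwa [r1] at this
  have hp : ∀ (X : St n → ℕ) (x : St n → ℝ≥0∞), (∀ s, toE (X (rs p g s)) ≤ x s) → ∀ s,
      toE (LN o 0 X (rs p g s)) ≤ wt o.om s p * x (nx s p) := by
    intro X x hX s
    have := V5N_LN h3 n o p g hg p X x hX s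
    rwa [r0] at this
  induction Y with
  | zero =>
    intro s
    obtain ⟨e1, e2, e3, e4⟩ := h1 n (toE z) o.om p g f s hg
    refine ⟨?_, ?_, ?_, ?_, ?_⟩
    · rw [(h2 n (toE z) o.om p (th p g) f s).1]
      exact (hF s).trans le_self_add
    · rw [e1]
      exact (hF s).trans le_self_add
    · simp [v5, hz]
    · simp [v5, hz]
    · simp [v5, hz]
  | succ Y ih =>
    have iB : ∀ s, toE ((v5 z o F Y).B (rs p g s)) ≤ SB (toE z) o.om p (th p g) f s :=
      fun s => (ih s).1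
    have iH : ∀ s, toE ((v5 z o F Y).H (rs p g s)) ≤ H5 (toE z) o.om p g f s :=
      fun s => (ih s).2.1
    have iC : ∀ s, toE ((v5 z o F Y).C (rs p g s)) ≤ C5 (toE z) o.om p g f s :=
      fun s => (ih s).2.2.1
    have iE : ∀ s, toE ((v5 z o F Y).E (rs p g s)) ≤ E5 (toE z) o.om p g f s :=
      fun s => (ih s).2.2.2.1
    have iA : ∀ s, toE ((v5 z o F Y).A (rs p g s)) ≤ A5 (toE z) o.om p g f s :=
      fun s => (ih s).2.2.2.2
    intro s
    obtain ⟨e1, e2, e3, e4⟩ := h1 n (toE z) o.om p g f s hg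
    refine ⟨?_, ?_, ?_, ?_, ?_⟩
    · rw [(h2 n (toE z) o.om p (th p g) f s).1, v5]
      simp only [w2]
      rw [hadd]
      refine add_le_add (hF s) (hmul _ _ ?_)
      rw [hadd]
      exact add_le_add (hp _ _ iB s) (hth _ _ iB s)
    · rw [e1, v5]
      simp only [w2]
      rw [hadd]
      exact add_le_add (hF s) (hmul _ _ (hth _ _ iH s))
    · rw [e2, v5]
      simp only [w2]
      refine hmul _ _ ?_
      rw [hadd]
      exact add_le_add (hth _ _ iC s) (hp _ _ iB s)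
    · rw [e3, v5]
      simp only [w2]
      refine hmul _ _ ?_
      rw [hadd, hadd]
      exact add_le_add (add_le_add (hth _ _ iE s) (iA s)) (iH s)
    · rw [e4, v5]
      simp only [w2]
      refine hmul _ _ ?_
      rw [hadd, hadd, mul_add]
      refine add_le_add (add_le_add (hp _ _ iA s) (hp _ _ iH s)) ?_
      refine ((w1 _ _).1).trans ?_
      refine mul_le_mul' (w4 o s p).2.2 ?_
      rw [hadd]
      have c1 := iC (th p g, 0)
      have c2 := hth _ _ iE ((p, 0) : St n)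
      have q1 : rs p g ((th p g, 0) : St n) = (1, 0) := by rw [rs, r1]
      have q2 : rs p g ((p, 0) : St n) = (0, 0) := by rw [rs, r0]
      rw [q1] at c1
      rw [q2] at c2
      exact add_le_add c1 c2

end SHR
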